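import Pool.Agent.X12.Szp20

/-!
# The discriminant bound for genus one: ALL elliptic curves over `ℚ` ordered by the height

The problem asks for `c`, `κ` with `Δ_C ≤ c N_C ^ κ` for all hyperelliptic curves of genus `g` over `K`.
We consider `K = ℚ`, `g = 1` and all elliptic curves (of arbitrary, also additive, reduction), ordered by the
naive height of their short minimal model.  For every `c > 0` the number of the curves of height at
most `H` which violate `Δ ≤ c N ^ κ` is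

* `H ^ (1 / κ - 1 / 6 + o(1))` for every `1 ≤ κ ≤ 6 / 5` (for `κ = 1` these are almost all of the
  `H ^ (5 / 6)` curves in the sense of exponents);
* at least `H ^ (1 / κ - 1 / 6 - ε)` for every `1 ≤ κ < 6`, at most `C H ^ (2 / 3 + ε)` for `κ ≥ 6 / 5`.

The proof of the upper bound treats the additive primes as follows.  Write
`b = b₁ b₂`, where `b₁` is composed of primes of `6 a` and `b₂` is prime to `6 a`, `u = gcd (4 a³, 27 b₁²)` and
`4 a³ - 27 b² = u (U - V b₂²)`.  The part of `U - V b₂²` which is prime to `6 a` has a small radical, so it is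
divisible by `d rad d` for some `d ≤ H ^ (1 / 3)` which is not small, or by the square of a prime
larger than `H ^ (1 / 3)`.  In the first case `b₂` is, given `a`, `b₁`, `d` and the part of `U - V b₂²`
composed of primes of `6 a`, in few residue classes and in a short interval, and
`u ≤ C b₁ (|a| / rad a) G²`, where `G` is the product of the primes dividing `a` and `b`; in the second
case one counts points on conics.
-/

set_option autoImplicit false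

namespace Pool.Agent.Results.MP_ca2859_nt.AllEllipticCurvesByHeight

open Filter Topology

/-- the discriminant of `x³ - a x - b` -/
def Disc (a b : ℤ) : ℤ := 4 * a ^ 3 - 27 * b ^ 2

/-- `y² = x³ - a x - b` is an elliptic curve and `|Disc|` is least among the integral models
`y² = x³ - a' x - b'`, `a' = u⁴ a`, `b' = u⁶ b`, `u ∈ ℚ^×`. Every elliptic curve over `ℚ` has exactly
one such model. -/
def IsMinimal (a b : ℤ) : Prop :=
  Disc a b ≠ 0 ∧ ∀ (u : ℚ) (a' b' : ℤ), u ≠ 0 → (a' : ℚ) = u ^ 4 * a → (b' : ℚ) = u ^ 6 * b →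
    |Disc a b| ≤ |Disc a' b'|

/-- the prime-to-6 part of the conductor of a minimal model: the product over the primes `p ≥ 5`
dividing `Disc` of `p` (multiplicative reduction: `p ∤ a`) or `p²` (additive reduction: `p ∣ a`) -/
def Cond6 (a b : ℤ) : ℕ :=
  ∏ p ∈ (Disc a b).natAbs.primeFactors.filter (fun p => 5 ≤ p), if (p : ℤ) ∣ a then p ^ 2 else p

/-- the curve `y² = x³ - a x - b` over `ℚ`, `q = (a, b)` -/
def E (q : ℤ × ℤ) : WeierstrassCurve ℚ := ⟨0, 0, 0, -(q.1 : ℚ), -(q.2 : ℚ)⟩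

/-- the absolute value of the minimal discriminant of an elliptic curve `W` over `ℚ`: the smallest
absolute value of the discriminant of a Weierstrass equation `V` with integer coefficients which is
isomorphic to `W` over `ℚ` -/
noncomputable def minDisc (W : WeierstrassCurve ℚ) : ℕ :=
  sInf {n : ℕ | ∃ (V : WeierstrassCurve ℤ) (C : WeierstrassCurve.VariableChange ℚ),
    C • W = V.map (Int.castRingHom ℚ) ∧ n = V.Δ.natAbs}

/-- the admissible factors: functions with values between `1` and `2 ^ 8 * 3 ^ 5`, for instance the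
part of the conductor composed of the primes 2 and 3, or `f = 1` -/
def Factor (f : ℤ × ℤ → ℕ) : Prop := ∀ q, 1 ≤ f q ∧ f q ≤ 2 ^ 8 * 3 ^ 5

/-- the elliptic curves over `ℚ` (minimal models) of naive height `max (4 |a|³, 27 b²) ≤ H` with
`c N ^ κ < Δ`, where `Δ` is the minimal discriminant and `N = f * Cond6` (for a suitable factor `f` this
is the conductor) -/
def Violators (f : ℤ × ℤ → ℕ) (c κ H : ℝ) : Set (ℤ × ℤ) :=
  {q | IsMinimal q.1 q.2 ∧ 4 * |(q.1 : ℝ)| ^ 3 ≤ H ∧ 27 * (q.2 : ℝ) ^ 2 ≤ H ∧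
    c * ((f q * Cond6 q.1 q.2 : ℕ) : ℝ) ^ κ < (minDisc (E q) : ℝ)}

/-- **Theorem.**  Let `f` be a factor (e.g. such that `N = f * Cond6` is the conductor) and `c > 0`.
(0) The sets of violators are finite.
(1) For `1 ≤ κ ≤ 6 / 5`, `H ^ (1 / κ - 1 / 6 + o(1))` elliptic curves over `ℚ` of height at most `H`
violate `Δ ≤ c N ^ κ`.  (2) For `1 ≤ κ < 6` at least `H ^ (1 / κ - 1 / 6 - ε)` of them do, for all large
`H`.  (3) For `κ ≥ 6 / 5` at most `C H ^ (2 / 3 + ε)` of them do. -/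
theorem result (f : ℤ × ℤ → ℕ) (hf : Factor f) (c : ℝ) (hc : 0 < c) :
    (∀ κ H : ℝ, 0 < κ → (Violators f c κ H).Finite) ∧
    (∀ κ : ℝ, 1 ≤ κ → κ ≤ 6 / 5 →
      Tendsto (fun H : ℝ => Real.log ((Violators f c κ H).ncard : ℝ) / Real.log H) atTop
        (𝓝 (1 / κ - 1 / 6))) ∧
    (∀ κ ε : ℝ, 1 ≤ κ → κ < 6 → 0 < ε → ∃ H₀ : ℝ, ∀ H : ℝ, H₀ ≤ H →
      H ^ (1 / κ - 1 / 6 - ε) ≤ ((Violators f c κ H).ncard : ℝ)) ∧
    (∀ κ ε : ℝ, 6 / 5 ≤ κ → 0 < ε → ∃ C : ℝ, 0 < C ∧ ∀ H : ℝ, 1 ≤ H →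
      ((Violators f c κ H).ncard : ℝ) ≤ C * H ^ (2 / 3 + ε)) := by
  have hbd : ∀ q : ℤ × ℤ, (Cond6 q.1 q.2 : ℝ) ≤ ((f q * Cond6 q.1 q.2 : ℕ) : ℝ) ∧
      ((f q * Cond6 q.1 q.2 : ℕ) : ℝ) ≤ (2 ^ 8 * 3 ^ 5 : ℝ) * (Cond6 q.1 q.2 : ℝ) := by
    intro q
    obtain ⟨h1, h2⟩ := hf q
    have h3 : (0 : ℝ) < (Cond6 q.1 q.2 : ℝ) := Pool.Agent.X12.Szp.Cnd_pos' q
    have h4 : (1 : ℝ) ≤ (f q : ℝ) := by exact_mod_cast h1
    have h5 : (f q : ℝ) ≤ 2 ^ 8 * 3 ^ 5 := by exact_mod_cast h2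
    push_cast
    constructor
    · nlinarith
    · gcongr
  have hsub1 : ∀ κ H : ℝ, 0 < κ → Violators f c κ H ⊆ Pool.Agent.X12.Szp.HD c κ H := by
    rintro κ H hκ q ⟨h1, h2, h3, h4⟩
    refine ⟨h1, h2, h3, lt_of_le_of_lt ?_ h4⟩
    exact mul_le_mul_of_nonneg_left (Real.rpow_le_rpow (Nat.cast_nonneg _) (hbd q).1 hκ.le) hc.le
  have hfin : ∀ κ H : ℝ, 0 < κ → (Violators f c κ H).Finite := fun κ H hκ =>
    (Pool.Agent.X12.Szp.HD_finite c κ H).subset (hsub1 κ H hκ)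
  have hup : ∀ κ ε : ℝ, 0 < κ → 0 < ε → ∃ K : ℝ, 0 < K ∧ ∀ H : ℝ, 1 ≤ H →
      ((Violators f c κ H).ncard : ℝ) ≤ K * H ^ (max (1 / κ - 1 / 6) (2 / 3) + ε) := by
    intro κ ε hκ hε
    obtain ⟨K, hK, h⟩ := Pool.Agent.X12.Szp.HD_upper c κ ε hc hκ hε
    refine ⟨K, hK, fun H hH => le_trans ?_ (h H hH)⟩
    exact_mod_cast Set.ncard_le_ncard (hsub1 κ H hκ) (Pool.Agent.X12.Szp.HD_finite c κ H)
  have hlow : ∀ κ ε : ℝ, 1 ≤ κ → κ < 6 → 0 < ε → ∃ H₀ : ℝ, ∀ H : ℝ, H₀ ≤ H →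
      H ^ (1 / κ - 1 / 6 - ε) ≤ ((Violators f c κ H).ncard : ℝ) := by
    intro κ ε h1 h2 h3
    have hκ0 : 0 < κ := by linarith
    obtain ⟨H0, h⟩ := Pool.Agent.X12.Szp.HD_lower (c * (2 ^ 8 * 3 ^ 5 : ℝ) ^ κ) κ ε (by positivity)
      h1 h2 h3
    refine ⟨H0, fun H hH => (h H hH).trans ?_⟩
    have h4 : Pool.Agent.X12.Szp.HD (c * (2 ^ 8 * 3 ^ 5 : ℝ) ^ κ) κ H ⊆ Violators f c κ H := by
      rintro q ⟨k1, k2, k3, k4⟩
      refine ⟨k1, k2, k3, lt_of_le_of_lt ?_ k4⟩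
      have h5 : ((f q * Cond6 q.1 q.2 : ℕ) : ℝ) ^ κ ≤
          (2 ^ 8 * 3 ^ 5 : ℝ) ^ κ * (Cond6 q.1 q.2 : ℝ) ^ κ := by
        rw [← Real.mul_rpow (by norm_num) (Nat.cast_nonneg _)]
        exact Real.rpow_le_rpow (Nat.cast_nonneg _) (hbd q).2 hκ0.le
      have h6 : c * ((f q * Cond6 q.1 q.2 : ℕ) : ℝ) ^ κ ≤
          c * ((2 ^ 8 * 3 ^ 5 : ℝ) ^ κ * (Cond6 q.1 q.2 : ℝ) ^ κ) := by gcongr
      refine h6.trans (le_of_eq ?_)
      rw [← mul_assoc]
      rfl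
    exact_mod_cast Set.ncard_le_ncard h4 (hfin κ H hκ0)
  refine ⟨hfin, fun κ h1 h2 => ?_, hlow, fun κ ε h1 h2 => ?_⟩
  · have hκ0 : 0 < κ := by linarith
    refine Pool.Agent.X12.Szp.tendsto_of_bounds _ _
      (fun ε hε => hlow κ ε h1 (by linarith) hε) fun ε hε => ?_
    obtain ⟨K, hK, h⟩ := hup κ ε hκ0 hε
    refine ⟨K, hK, fun H hH => (h H hH).trans (le_of_eq ?_)⟩
    have h4 : 2 / 3 ≤ 1 / κ - 1 / 6 := by
      rw [le_sub_iff_add_le, le_div_iff₀ hκ0]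
      linarith
    rw [max_eq_left h4]
  · have hκ0 : 0 < κ := by linarith
    obtain ⟨K, hK, h⟩ := hup κ ε hκ0 h2
    refine ⟨K, hK, fun H hH => (h H hH).trans (le_of_eq ?_)⟩
    have h4 : 1 / κ - 1 / 6 ≤ 2 / 3 := by
      rw [sub_le_iff_le_add, div_le_iff₀ hκ0]
      linarith
    rw [max_eq_right h4]

end Pool.Agent.Results.MP_ca2859_nt.AllEllipticCurvesByHeight
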