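import Pool.Agent.X39.Win.Ell
import Pool.Agent.X12.Szp20
import Pool.Agent.X12.Szp23

/-!
# The discriminants of ALL elliptic curves over `ℚ` in small boxes

Let `v ≥ 1` be a sequence with exponent of convergence at most `τ` (for `v_n = n ^ k` this is `1 / k`,
for `v_n = b ^ n` it is `0`). For almost all points `(α, β)` of the plane we consider the elliptic curves
`y² = x³ - a x - b` over `ℚ` (minimal models, arbitrary reduction) in the boxes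
`|a - α v_n ^ 2| ≤ v_n ^ θ₁`, `|b - β v_n ^ 3| ≤ v_n ^ θ₂`. If `θ₁ + θ₂ + τ` is less than
`min (6 - 6 / κ, 1)`, then for all large `n` ALL these curves satisfy `Δ ≤ c N ^ κ`, and if it is less
than `min (24 / 5 - 24 / (5 κ), 1)`, then they satisfy `Δ ≤ c M ^ κ`, `M` the product of the bad primes.
-/

set_option autoImplicit false

open MeasureTheory

namespace Pool.Agent.Results.MP_ca2859_nt.AllEllipticCurvesInBoxes

/-- the exponent of convergence of the sequence `v` is at most `τ` -/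
def ExpLe (v : ℕ → ℝ) (τ : ℝ) : Prop := ∀ t : ℝ, τ < t → Summable (fun n : ℕ => (v n) ^ (-t))

/-- the discriminant of `x³ - a x - b` -/
def Disc (a b : ℤ) : ℤ := 4 * a ^ 3 - 27 * b ^ 2

/-- `y² = x³ - a x - b` is an elliptic curve and `|Disc|` is least among the integral models
`y² = x³ - a' x - b'`, `a' = u⁴ a`, `b' = u⁶ b`, `u ∈ ℚ^×`. Every elliptic curve over `ℚ` has exactly
one such model. -/
def IsMinimal (a b : ℤ) : Prop :=
  Disc a b ≠ 0 ∧ ∀ (u : ℚ) (a' b' : ℤ), u ≠ 0 → (a' : ℚ) = u ^ 4 * a → (b' : ℚ) = u ^ 6 * b →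
    |Disc a b| ≤ |Disc a' b'|

/-- the prime-to-6 part of the conductor of a minimal model: the product over the primes `p ≥ 5`
dividing `Disc` of `p` (multiplicative reduction: `p ∤ a`) or `p²` (additive reduction: `p ∣ a`) -/
def Cond6 (a b : ℤ) : ℕ :=
  ∏ p ∈ (Disc a b).natAbs.primeFactors.filter (fun p => 5 ≤ p), if (p : ℤ) ∣ a then p ^ 2 else p

/-- the product of the bad primes `p ≥ 5` of a minimal model, that is of the primes `p ≥ 5` dividing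
`Disc` -/
def Bad6 (a b : ℤ) : ℕ := ∏ p ∈ (Disc a b).natAbs.primeFactors.filter (fun p => 5 ≤ p), p

/-- the curve `y² = x³ - a x - b` over `ℚ`, `q = (a, b)` -/
def E (q : ℤ × ℤ) : WeierstrassCurve ℚ := ⟨0, 0, 0, -(q.1 : ℚ), -(q.2 : ℚ)⟩

/-- the absolute value of the minimal discriminant of an elliptic curve `W` over `ℚ`: the smallest
absolute value of the discriminant of a Weierstrass equation `V` with integer coefficients which is
isomorphic to `W` over `ℚ` -/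
noncomputable def minDisc (W : WeierstrassCurve ℚ) : ℕ :=
  sInf {n : ℕ | ∃ (V : WeierstrassCurve ℤ) (C : WeierstrassCurve.VariableChange ℚ),
    C • W = V.map (Int.castRingHom ℚ) ∧ n = V.Δ.natAbs}

/-- `(a, b)` is in the box `|a - α x ^ 2| ≤ x ^ θ₁`, `|b - β x ^ 3| ≤ x ^ θ₂`, `p = (α, β)` -/
def InBox (p : ℝ × ℝ) (x θ₁ θ₂ : ℝ) (q : ℤ × ℤ) : Prop :=
  |(q.1 : ℝ) - p.1 * x ^ 2| ≤ x ^ θ₁ ∧ |(q.2 : ℝ) - p.2 * x ^ 3| ≤ x ^ θ₂

/-- all constants at once -/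
lemma allc {P : ℝ × ℝ → ℝ → Prop} (h : ∀ k : ℕ, ∀ᵐ p : ℝ × ℝ, P p (1 / ((k : ℝ) + 1)))
    (hmono : ∀ p c c', c ≤ c' → P p c → P p c') : ∀ᵐ p : ℝ × ℝ, ∀ c : ℝ, 0 < c → P p c := by
  filter_upwards [ae_all_iff.2 h] with p hp c hc
  obtain ⟨k, hk⟩ := exists_nat_one_div_lt hc
  exact hmono p _ _ hk.le (hp k)

/-- **Theorem.** Let `v ≥ 1` be a sequence with exponent of convergence at most `τ` and `κ > 1`.

1. If `τ + θ₁ + θ₂ < min (6 - 6 / κ, 1)`, then for almost all `(α, β)` and each `c > 0` the inequality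
`Δ ≤ c N ^ κ`, even with the prime-to-6 part of the conductor in place of `N`, holds for ALL elliptic
curves over `ℚ` in the box around `(α v_n ^ 2, β v_n ^ 3)` with sides `2 v_n ^ θ₁`, `2 v_n ^ θ₂`, for
all large `n`.

2. If `τ + θ₁ + θ₂ < min (24 / 5 - 24 / (5 κ), 1)`, then the same holds for `Δ ≤ c M ^ κ`, where `M` is
the product of the bad primes `p ≥ 5`.

3. The sequences `v_n = (n + 1) ^ k` and `v_n = b ^ n` have exponent of convergence at most `1 / k` and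
`0`. -/
theorem result :
    (∀ (v : ℕ → ℝ) (τ θ₁ θ₂ κ : ℝ), (∀ n, 1 ≤ v n) → ExpLe v τ → θ₁ ≤ 2 → θ₂ ≤ 3 → 1 < κ →
      τ + θ₁ + θ₂ < min (6 - 6 / κ) 1 →
      ∀ᵐ p : ℝ × ℝ, ∀ c : ℝ, 0 < c → ∃ n₀ : ℕ, ∀ n : ℕ, n₀ ≤ n → ∀ q : ℤ × ℤ,
        IsMinimal q.1 q.2 → InBox p (v n) θ₁ θ₂ q →
          (minDisc (E q) : ℝ) ≤ c * (Cond6 q.1 q.2 : ℝ) ^ κ) ∧
    (∀ (v : ℕ → ℝ) (τ θ₁ θ₂ κ : ℝ), (∀ n, 1 ≤ v n) → ExpLe v τ → θ₁ ≤ 2 → θ₂ ≤ 3 → 1 < κ →
      τ + θ₁ + θ₂ < min (24 / 5 - 24 / (5 * κ)) 1 →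
      ∀ᵐ p : ℝ × ℝ, ∀ c : ℝ, 0 < c → ∃ n₀ : ℕ, ∀ n : ℕ, n₀ ≤ n → ∀ q : ℤ × ℤ,
        IsMinimal q.1 q.2 → InBox p (v n) θ₁ θ₂ q →
          (minDisc (E q) : ℝ) ≤ c * (Bad6 q.1 q.2 : ℝ) ^ κ) ∧
    (∀ k : ℝ, 0 < k → ExpLe (fun n : ℕ => ((n : ℝ) + 1) ^ k) (1 / k)) ∧
    (∀ b : ℝ, 1 < b → ExpLe (fun n : ℕ => b ^ n) 0) := by
  refine ⟨?_, ?_, fun κ hκ => Pool.Agent.Y854.GM.expLe_pow κ hκ,
    fun b hb => Pool.Agent.Y854.GM.expLe_geom b hb⟩
  · intro v τ θ₁ θ₂ κ hv hE h1 h2 hκ hs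
    have hκ0 : 0 < κ := by linarith
    have hs1 := hs.trans_le (min_le_left _ _)
    have hs2 := hs.trans_le (min_le_right _ _)
    refine allc (P := fun p c => ∃ n₀ : ℕ, ∀ n : ℕ, n₀ ≤ n → ∀ q : ℤ × ℤ,
        IsMinimal q.1 q.2 → InBox p (v n) θ₁ θ₂ q →
          (minDisc (E q) : ℝ) ≤ c * (Cond6 q.1 q.2 : ℝ) ^ κ) (fun k => ?_) ?_
    · have hc : (0 : ℝ) < 1 / ((k : ℝ) + 1) := by positivity
      have hT : Pool.Agent.X39.Win.Thin (Pool.Agent.X12.Szp.SD (1 / ((k : ℝ) + 1)) κ)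
          (max (6 / κ - 1) 4) := by
        intro ε hε
        obtain ⟨K, -, h⟩ := Pool.Agent.X12.Szp.SD_box (1 / ((k : ℝ) + 1)) κ ε hc hκ0 hε
        exact ⟨K, h⟩
      have hsum : max (6 / κ - 1) 4 + τ + θ₁ + θ₂ < 5 := by
        rcases max_choice (6 / κ - 1) 4 with h | h <;> rw [h] <;> linarith
      filter_upwards [Pool.Agent.X39.Win.pairs _ hT hv hE h1 h2 hsum] with p hp
      obtain ⟨n₀, hn⟩ := hp
      refine ⟨n₀, fun n hn1 q hq hb => ?_⟩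
      by_contra hcon
      push Not at hcon
      exact hn n hn1 q ⟨hq, hcon⟩ hb
    · rintro p c c' hcc ⟨n₀, hn⟩
      exact ⟨n₀, fun n hn1 q hq hb => (hn n hn1 q hq hb).trans
        (mul_le_mul_of_nonneg_right hcc (by positivity))⟩
  · intro v τ θ₁ θ₂ κ hv hE h1 h2 hκ hs
    have hκ0 : 0 < κ := by linarith
    have hs1 := hs.trans_le (min_le_left _ _)
    have hs2 := hs.trans_le (min_le_right _ _)
    refine allc (P := fun p c => ∃ n₀ : ℕ, ∀ n : ℕ, n₀ ≤ n → ∀ q : ℤ × ℤ,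
        IsMinimal q.1 q.2 → InBox p (v n) θ₁ θ₂ q →
          (minDisc (E q) : ℝ) ≤ c * (Bad6 q.1 q.2 : ℝ) ^ κ) (fun k => ?_) ?_
    · have hc : (0 : ℝ) < 1 / ((k : ℝ) + 1) := by positivity
      have hT : Pool.Agent.X39.Win.Thin (Pool.Agent.X12.Szp.SM (1 / ((k : ℝ) + 1)) κ)
          (max (1 / 5 + 24 / (5 * κ)) 4) := by
        intro ε hε
        obtain ⟨K, -, h⟩ := Pool.Agent.X12.Szp.SM_box (1 / ((k : ℝ) + 1)) κ ε hc hκ0 hε
        exact ⟨K, h⟩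
      have hsum : max (1 / 5 + 24 / (5 * κ)) 4 + τ + θ₁ + θ₂ < 5 := by
        rcases max_choice (1 / 5 + 24 / (5 * κ)) 4 with h | h <;> rw [h] <;> linarith
      filter_upwards [Pool.Agent.X39.Win.pairs _ hT hv hE h1 h2 hsum] with p hp
      obtain ⟨n₀, hn⟩ := hp
      refine ⟨n₀, fun n hn1 q hq hb => ?_⟩
      by_contra hcon
      push Not at hcon
      exact hn n hn1 q ⟨hq, hcon⟩ hb
    · rintro p c c' hcc ⟨n₀, hn⟩
      exact ⟨n₀, fun n hn1 q hq hb => (hn n hn1 q hq hb).trans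
        (mul_le_mul_of_nonneg_right hcc (by positivity))⟩

end Pool.Agent.Results.MP_ca2859_nt.AllEllipticCurvesInBoxes
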