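import Mathlib
import Pool.Agent.X4.RST.Sz3

/-!
# The number of exceptions to weak Szpiro bounds for semistable curves with full 2-torsion, with
# the second order term

For `2 < κ < 3` and `c₀ > 0` the number of semistable elliptic curves over `ℚ` with full rational
2-torsion, naive height at most `X ^ 6` and `|Δ| > c₀ N ^ κ` is
`X ^ (6 / κ - 1) * exp ((√(24 (3 - 6 / κ)) + o(1)) √(log X / log log X))`.

Such curves are the Frey curves of abc triples. For the upper bound the triples are counted by the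
repeated parts of `a, b, c` (primitive points of lattices, Rankin's method, asymptotics of the Euler
product of `∑ 1 / (rad(m) m ^ σ)` for `σ → 0`); for the lower bound one constructs triples with
`a ≡ 1 mod 4`, `32 ∣ c`, for which the part of `abc` composed of the primes of a certain range whose
squares divide it is given.
-/

set_option autoImplicit false

namespace Pool.Agent.Results.MP_ca2859_nt.FreySecondOrderLaw

open Filter Topology

/-- the product of the distinct primes dividing `Δ(W)` (the conductor if `gcd(c₄, Δ) = 1`) -/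
def conductor (W : WeierstrassCurve ℤ) : ℕ := ∏ p ∈ W.Δ.natAbs.primeFactors, p

/-- all 2-torsion points are rational: `4x³ + b₂x² + 2b₄x + b₆` splits over `ℚ` -/
def FullTwoTorsion (W : WeierstrassCurve ℤ) : Prop :=
  ∃ r₁ r₂ r₃ : ℚ, ∀ x : ℚ,
    4 * x ^ 3 + W.b₂ * x ^ 2 + 2 * W.b₄ * x + W.b₆ = 4 * (x - r₁) * (x - r₂) * (x - r₃)

/-- the invariants `(c₄, c₆)` of the integral Weierstrass curves with `Δ ≠ 0` and `gcd(c₄, Δ) = 1`
(the minimal models of the semistable elliptic curves over `ℚ`) having full rational 2-torsion,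
naive height `max (|c₄|³, c₆²) ≤ X⁶` and `c₀ N ^ κ < |Δ|` -/
def Exceptional (κ c₀ : ℝ) (X : ℕ) : Set (ℤ × ℤ) :=
  {q | ∃ W : WeierstrassCurve ℤ, W.Δ ≠ 0 ∧ IsCoprime W.c₄ W.Δ ∧ FullTwoTorsion W ∧
    q = (W.c₄, W.c₆) ∧ |W.c₄| ^ 3 ≤ (X : ℤ) ^ 6 ∧ W.c₆ ^ 2 ≤ (X : ℤ) ^ 6 ∧
    c₀ * (conductor W : ℝ) ^ κ < |(W.Δ : ℝ)|}

/-- **Main theorem.** For `2 < κ < 3` and `c₀ > 0` let `N(X)` be the number of semistable elliptic
curves over `ℚ` with full rational 2-torsion, naive height at most `X⁶` and `|Δ| > c₀ N ^ κ`. Then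
`(log N(X) - (6 / κ - 1) log X) / √(log X / log log X)` tends to `√(24 (3 - 6 / κ))`. -/
theorem result (κ c₀ : ℝ) (h1 : 2 < κ) (h2 : κ < 3) (hc₀ : 0 < c₀) :
    (∀ X : ℕ, (Exceptional κ c₀ X).Finite) ∧
    Tendsto (fun X : ℕ => (Real.log ((Exceptional κ c₀ X).ncard : ℝ) -
      (6 / κ - 1) * Real.log X) / √(Real.log X / Real.log (Real.log X))) atTop
      (𝓝 (√(24 * (3 - 6 / κ)))) :=
  ⟨fun X => (Pool.Agent.X4.RST.exc_le κ c₀ (by linarith) hc₀ X).1,
    Pool.Agent.X4.RST.frey_law h1 h2 hc₀⟩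

end Pool.Agent.Results.MP_ca2859_nt.FreySecondOrderLaw
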